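import Mathlib

/-!
# Sums of two elements of complexity one in `ℤ[X]` (MP_0efb30_nt)

Every nonzero `f` in `ℤ[X]` is, for every `n ≥ 1` with `n ≥ deg f`, a sum of two polynomials of
degree `n` each of which is a product of two non-associated irreducible elements of `ℤ[X]`.
-/

set_option autoImplicit false

open Polynomial

namespace Pool.Agent.Results.MP_0efb30_nt.IntegerPolynomials

/-- `x` is of complexity one: up to a unit a power `p ^ e`, `e ≥ 2`, of an irreducible element, or a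
product of two non-associated irreducible elements. -/
def ComplexityOne {R : Type} [CommRing R] (x : R) : Prop :=
  (∃ p : R, ∃ e : ℕ, Irreducible p ∧ 2 ≤ e ∧ Associated (p ^ e) x) ∨
    ∃ p q : R, Irreducible p ∧ Irreducible q ∧ ¬ Associated p q ∧ x = p * q

/-- the polynomial `q X ^ n + α ^ 2 p (1 + 2 β q) f + p q ^ 2 w` -/
noncomputable def U (p q α β w : ℤ) (f : ℤ[X]) (n : ℕ) : ℤ[X] :=
  C q * X ^ n + C (p * (α ^ 2 * (1 + 2 * β * q))) * f + C (p * q ^ 2 * w)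

theorem U_coeff_top {p q α β w : ℤ} {f : ℤ[X]} {n : ℕ} (hn : f.natDegree < n) :
    (U p q α β w f n).coeff n = q := by
  have h1 : f.coeff n = 0 := coeff_eq_zero_of_natDegree_lt hn
  have h2 : n ≠ 0 := by omega
  rw [U, coeff_add, coeff_add, coeff_C_mul, coeff_C_mul, coeff_C, coeff_X_pow, if_pos rfl,
    if_neg h2, h1]
  ring

theorem U_coeff_low {p q α β w : ℤ} {f : ℤ[X]} {n i : ℕ} (hi : i < n) :
    (U p q α β w f n).coeff i =
      p * (α ^ 2 * (1 + 2 * β * q)) * f.coeff i + if i = 0 then p * q ^ 2 * w else 0 := by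
  have h2 : i ≠ n := by omega
  rw [U, coeff_add, coeff_add, coeff_C_mul, coeff_C_mul, coeff_C, coeff_X_pow, if_neg h2]
  ring

theorem U_natDegree {p q α β w : ℤ} {f : ℤ[X]} {n : ℕ} (hn : f.natDegree < n) (hq : q ≠ 0) :
    (U p q α β w f n).natDegree = n := by
  refine le_antisymm ?_ (le_natDegree_of_ne_zero (by rw [U_coeff_top hn]; exact hq))
  rw [natDegree_le_iff_coeff_eq_zero]
  intro i hi
  have h1 : f.coeff i = 0 := coeff_eq_zero_of_natDegree_lt (by omega)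
  have h2 : i ≠ 0 := by omega
  have h3 : i ≠ n := by omega
  rw [U, coeff_add, coeff_add, coeff_C_mul, coeff_C_mul, coeff_C, coeff_X_pow, if_neg h3,
    if_neg h2, h1]
  ring

theorem U_irreducible {p q α β w : ℤ} {f : ℤ[X]} {n : ℕ} (hn : f.natDegree < n)
    (hp : Prime p) (hq : Prime q) (hpq : ¬ p ∣ q) (hab : α * p + β * q = 1)
    (hf : ¬ q ∣ f.leadingCoeff)
    (hw : ¬ p ∣ α ^ 2 * (1 + 2 * β * q) * f.coeff 0 + q ^ 2 * w) :
    Irreducible (U p q α β w f n) := by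
  have hdeg := U_natDegree (p := p) (α := α) (β := β) (w := w) hn hq.ne_zero
  have hn0 : 0 < n := by omega
  have hlead : (U p q α β w f n).leadingCoeff = q := by
    rw [leadingCoeff, hdeg, U_coeff_top hn]
  have hP : (Ideal.span {p} : Ideal ℤ).IsPrime := (Ideal.span_singleton_prime hp.ne_zero).mpr hp
  refine irreducible_of_eisenstein_criterion hP ?_ ?_ ?_ ?_ ?_
  · rw [hlead, Ideal.mem_span_singleton]
    exact hpq
  · intro i hi
    rw [degree_eq_natDegree (by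
      intro h
      rw [h, leadingCoeff_zero] at hlead
      exact hq.ne_zero hlead.symm), hdeg] at hi
    have hi' : i < n := by exact_mod_cast hi
    rw [U_coeff_low hi', Ideal.mem_span_singleton]
    refine dvd_add ⟨α ^ 2 * (1 + 2 * β * q) * f.coeff i, by ring⟩ ?_
    split_ifs
    · exact Dvd.intro (q ^ 2 * w) (by ring)
    · exact dvd_zero _
  · rw [degree_eq_natDegree (by
      intro h
      rw [h, leadingCoeff_zero] at hlead
      exact hq.ne_zero hlead.symm), hdeg]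
    exact_mod_cast hn0
  · rw [U_coeff_low hn0, if_pos rfl, Ideal.span_singleton_pow, Ideal.mem_span_singleton]
    rintro ⟨c, hc⟩
    apply hw
    refine ⟨c, mul_left_cancel₀ hp.ne_zero ?_⟩
    linear_combination hc
  · intro r hr
    rw [C_dvd_iff_dvd_coeff] at hr
    have h1 : r ∣ q := by
      have := hr n
      rwa [U_coeff_top hn] at this
    have hirr := hq.irreducible
    rcases hirr.dvd_iff.mp h1 with h2 | h2
    · exact h2
    · exfalso
      have h3 : q ∣ r := h2.dvd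
      have h4 := h3.trans (hr f.natDegree)
      rw [U_coeff_low hn] at h4
      have h5 : q ∣ p * (α ^ 2 * (1 + 2 * β * q)) * f.coeff f.natDegree := by
        have h6 : q ∣ (if f.natDegree = 0 then p * q ^ 2 * w else 0) := by
          split_ifs
          · exact Dvd.intro (p * q * w) (by ring)
          · exact dvd_zero _
        exact (dvd_add_left h6).mp h4
      have hqp : ¬ q ∣ α * p := by
        intro h
        have h7 : q ∣ 1 := by
          rw [← hab]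
          exact dvd_add h (Dvd.intro_left _ rfl)
        exact hq.not_isUnit (isUnit_of_dvd_one h7)
      rcases hq.dvd_mul.mp h5 with h6 | h6
      · rcases hq.dvd_mul.mp h6 with h7 | h7
        · exact hqp (h7.mul_left _)
        · rcases hq.dvd_mul.mp h7 with h8 | h8
          · exact hqp ((hq.dvd_of_dvd_pow h8).mul_right _)
          · have h9 : q ∣ 1 := by
              have h10 : q ∣ 2 * β * q := Dvd.intro_left _ rfl
              exact (dvd_add_left h10).mp h8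
            exact hq.not_isUnit (isUnit_of_dvd_one h9)
      · exact hf h6

theorem complexity {p q α β w : ℤ} {f : ℤ[X]} {n : ℕ} (hn : f.natDegree < n)
    (hp : Prime p) (hq : Prime q) (hpq : ¬ p ∣ q) (hab : α * p + β * q = 1)
    (hf : ¬ q ∣ f.leadingCoeff)
    (hw : ¬ p ∣ α ^ 2 * (1 + 2 * β * q) * f.coeff 0 + q ^ 2 * w) :
    (C p * U p q α β w f n).natDegree = n ∧ ComplexityOne (C p * U p q α β w f n) := by
  have hdeg := U_natDegree (p := p) (α := α) (β := β) (w := w) hn hq.ne_zero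
  refine ⟨by rw [natDegree_C_mul hp.ne_zero, hdeg], Or.inr ⟨C p, U p q α β w f n, ?_,
    U_irreducible hn hp hq hpq hab hf hw, ?_, rfl⟩⟩
  · exact (prime_C_iff.mpr hp).irreducible
  · intro h
    have h1 := natDegree_eq_of_degree_eq (degree_eq_degree_of_associated h)
    rw [natDegree_C, hdeg] at h1
    omega

theorem high (f : ℤ[X]) (hf : f ≠ 0) (n : ℕ) (hn : f.natDegree < n) :
    ∃ x y : ℤ[X], x.natDegree = n ∧ y.natDegree = n ∧ ComplexityOne x ∧ ComplexityOne y ∧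
      f = x + y := by
  obtain ⟨p, hpN, hp⟩ := Nat.exists_infinite_primes (f.leadingCoeff.natAbs + 1)
  obtain ⟨q, hqN, hq⟩ := Nat.exists_infinite_primes (p + 1)
  have hlc : f.leadingCoeff ≠ 0 := leadingCoeff_ne_zero.mpr hf
  have hnd : ∀ r : ℕ, f.leadingCoeff.natAbs < r → ¬ (r : ℤ) ∣ f.leadingCoeff := by
    intro r hr h
    have h1 := Int.natAbs_dvd_natAbs.mpr h
    rw [Int.natAbs_natCast] at h1
    have := Nat.le_of_dvd (Int.natAbs_pos.mpr hlc) h1
    omega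
  have hp' : Prime (p : ℤ) := Nat.prime_iff_prime_int.mp hp
  have hq' : Prime (q : ℤ) := Nat.prime_iff_prime_int.mp hq
  have hne : p ≠ q := by omega
  have hcop : Nat.Coprime p q := (Nat.coprime_primes hp hq).mpr hne
  have hpq : ¬ (p : ℤ) ∣ q := by
    intro h
    exact hne ((Nat.prime_dvd_prime_iff_eq hp hq).mp (Int.natCast_dvd_natCast.mp h))
  have hqp : ¬ (q : ℤ) ∣ p := by
    intro h
    exact hne ((Nat.prime_dvd_prime_iff_eq hq hp).mp (Int.natCast_dvd_natCast.mp h)).symm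
  obtain ⟨α, β, hab⟩ := (Nat.isCoprime_iff_coprime.mpr hcop)
  obtain ⟨w, hw1, hw2⟩ : ∃ w : ℤ,
      ¬ (p : ℤ) ∣ α ^ 2 * (1 + 2 * β * q) * f.coeff 0 + (q : ℤ) ^ 2 * w ∧
      ¬ (q : ℤ) ∣ β ^ 2 * (1 + 2 * α * p) * (-f).coeff 0 + (p : ℤ) ^ 2 * w := by
    have key : ∀ (a b c : ℤ), Prime a → ¬ a ∣ b → ∃ y : ℤ, ¬ a ∣ c + b ^ 2 * (b * y) := by
      intro a b c ha hb
      by_cases h : a ∣ c
      · refine ⟨1, fun h1 => hb ?_⟩
        have h2 := (dvd_add_right h).mp h1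
        rw [mul_one, ← pow_succ] at h2
        exact ha.dvd_of_dvd_pow h2
      · exact ⟨0, by simpa using h⟩
    obtain ⟨y1, hy1⟩ := key p q (α ^ 2 * (1 + 2 * β * q) * f.coeff 0) hp' hpq
    obtain ⟨y2, hy2⟩ := key q p (β ^ 2 * (1 + 2 * α * p) * (-f).coeff 0) hq' hqp
    refine ⟨q * y1 + p * y2, fun h => hy1 ?_, fun h => hy2 ?_⟩
    · have h1 : (p : ℤ) ∣ (q : ℤ) ^ 2 * (p * y2) := Dvd.intro ((q : ℤ) ^ 2 * y2) (by ring)
      have h2 := dvd_sub h h1
      have e : α ^ 2 * (1 + 2 * β * q) * f.coeff 0 + (q : ℤ) ^ 2 * (q * y1) =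
          α ^ 2 * (1 + 2 * β * q) * f.coeff 0 + (q : ℤ) ^ 2 * (q * y1 + p * y2) -
            (q : ℤ) ^ 2 * (p * y2) := by ring
      rw [e]
      exact h2
    · have h1 : (q : ℤ) ∣ (p : ℤ) ^ 2 * (q * y1) := Dvd.intro ((p : ℤ) ^ 2 * y1) (by ring)
      have h2 := dvd_sub h h1
      have e : β ^ 2 * (1 + 2 * α * p) * (-f).coeff 0 + (p : ℤ) ^ 2 * (p * y2) =
          β ^ 2 * (1 + 2 * α * p) * (-f).coeff 0 + (p : ℤ) ^ 2 * (q * y1 + p * y2) -
            (p : ℤ) ^ 2 * (q * y1) := by ring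
      rw [e]
      exact h2
  obtain ⟨hx1, hx2⟩ := complexity hn hp' hq' hpq hab (hnd q (by omega)) hw1
  obtain ⟨hy1, hy2⟩ := complexity (f := -f) (n := n) (by rw [natDegree_neg]; exact hn) hq' hp' hqp
    (by rw [add_comm]; exact hab) (by
      rw [leadingCoeff_neg, dvd_neg]
      exact hnd p (by omega)) hw2
  refine ⟨_, -(C (q : ℤ) * U q p β α w (-f) n), hx1, by rw [natDegree_neg]; exact hy1, hx2, ?_, ?_⟩
  · rcases hy2 with ⟨r, e, h1, h2, h3⟩ | ⟨r, s, h1, h2, h3, h4⟩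
    · exact Or.inl ⟨r, e, h1, h2, h3.neg_right⟩
    · refine Or.inr ⟨r, -s, h1, ((Associated.refl s).neg_right).irreducible h2, fun h => h3 ?_, by rw [h4]; ring⟩
      exact h.trans (Associated.neg_left (Associated.refl s))
  · have key : (p : ℤ) * (p * (α ^ 2 * (1 + 2 * β * q))) +
        q * (q * (β ^ 2 * (1 + 2 * α * p))) = 1 := by
      linear_combination (α * p + β * q + 1 + 2 * α * p * β * q) * hab
    have e1 : (C (p : ℤ) * C ((p : ℤ) * (α ^ 2 * (1 + 2 * β * q))) +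
        C (q : ℤ) * C ((q : ℤ) * (β ^ 2 * (1 + 2 * α * p))) : ℤ[X]) = 1 := by
      rw [← C_mul, ← C_mul, ← C_add, key, C_1]
    have e2 : (C (p : ℤ) * C ((p : ℤ) * (q : ℤ) ^ 2 * w) : ℤ[X]) =
        C (q : ℤ) * C ((q : ℤ) * (p : ℤ) ^ 2 * w) := by
      rw [← C_mul, ← C_mul]
      congr 1
      ring
    unfold U
    linear_combination (-f) * e1 - e2

/-- the polynomial `q a X ^ n + p g` -/
noncomputable def W (p q a : ℤ) (g : ℤ[X]) (n : ℕ) : ℤ[X] := C (q * a) * X ^ n + C p * g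

theorem W_coeff {p q a : ℤ} {g : ℤ[X]} {n i : ℕ} :
    (W p q a g n).coeff i = (if i = n then q * a else 0) + p * g.coeff i := by
  rw [W, coeff_add, coeff_C_mul, coeff_C_mul, coeff_X_pow]
  split_ifs <;> simp

theorem W_natDegree {p q a : ℤ} {g : ℤ[X]} {n : ℕ} (hg : g.natDegree ≤ n)
    (hpqa : ¬ p ∣ q * a) : (W p q a g n).natDegree = n := by
  refine le_antisymm ?_ (le_natDegree_of_ne_zero ?_)
  · rw [natDegree_le_iff_coeff_eq_zero]
    intro i hi
    rw [W_coeff, if_neg (by omega), coeff_eq_zero_of_natDegree_lt (by omega)]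
    ring
  · rw [W_coeff, if_pos rfl]
    intro h
    exact hpqa ⟨-g.coeff n, by linear_combination h⟩

theorem W_irreducible {p q a : ℤ} {g : ℤ[X]} {n : ℕ} (hn : 0 < n) (hg : g.natDegree ≤ n)
    (hp : Prime p) (hpqa : ¬ p ∣ q * a) (hg0 : ¬ p ∣ g.coeff 0)
    (hprim : ∀ l : ℤ, Prime l → l ∣ g.coeff 0 → ¬ l ∣ q * a + p * g.coeff n) :
    Irreducible (W p q a g n) := by
  have hdeg := W_natDegree hg hpqa
  have hlead : (W p q a g n).leadingCoeff = q * a + p * g.coeff n := by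
    rw [leadingCoeff, hdeg, W_coeff, if_pos rfl]
  have hlp : ¬ p ∣ (W p q a g n).leadingCoeff := by
    rw [hlead]
    intro h
    exact hpqa ((dvd_add_left (Dvd.intro _ rfl)).mp h)
  have hne : W p q a g n ≠ 0 := by
    intro h
    rw [h, leadingCoeff_zero] at hlp
    exact hlp (dvd_zero _)
  have hP : (Ideal.span {p} : Ideal ℤ).IsPrime := (Ideal.span_singleton_prime hp.ne_zero).mpr hp
  refine irreducible_of_eisenstein_criterion hP ?_ ?_ ?_ ?_ ?_
  · rw [Ideal.mem_span_singleton]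
    exact hlp
  · intro i hi
    rw [degree_eq_natDegree hne, hdeg] at hi
    have hi' : i < n := by exact_mod_cast hi
    rw [W_coeff, if_neg (by omega), zero_add, Ideal.mem_span_singleton]
    exact Dvd.intro _ rfl
  · rw [degree_eq_natDegree hne, hdeg]
    exact_mod_cast hn
  · rw [W_coeff, if_neg (by omega), zero_add, Ideal.span_singleton_pow, Ideal.mem_span_singleton]
    rintro ⟨c, hc⟩
    apply hg0
    refine ⟨c, mul_left_cancel₀ hp.ne_zero ?_⟩
    linear_combination hc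
  · intro r hr
    rw [C_dvd_iff_dvd_coeff] at hr
    have h1 : r ∣ q * a + p * g.coeff n := by
      have := hr n
      rwa [W_coeff, if_pos rfl] at this
    have h2 : r ∣ p * g.coeff 0 := by
      have := hr 0
      rwa [W_coeff, if_neg (by omega), zero_add] at this
    by_contra hu
    obtain ⟨l, hl, hlr⟩ := Int.exists_prime_and_dvd (n := r) (by
      intro h
      exact hu (Int.isUnit_iff_natAbs_eq.mpr h))
    rcases hl.dvd_mul.mp (hlr.trans h2) with h3 | h3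
    · have h4 : p ∣ l := ((hl.dvd_prime_iff_associated hp).mp h3).symm.dvd
      rw [hlead] at hlp
      exact hlp (h4.trans (hlr.trans h1))
    · exact hprim l hl h3 (hlr.trans h1)

theorem crt (S : Finset ℕ) (hS : ∀ l ∈ S, l.Prime) (c : ℕ → ℕ) :
    ∃ a : ℕ, ∀ l ∈ S, (l : ℤ) ∣ (a : ℤ) - c l := by
  obtain ⟨a, ha⟩ := Nat.chineseRemainderOfFinset c id S (fun l hl => (hS l hl).ne_zero)
    (fun l hl m hm hlm => (Nat.coprime_primes (hS l hl) (hS m hm)).mpr hlm)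
  refine ⟨a, fun l hl => ?_⟩
  have := (Nat.modEq_iff_dvd.mp (ha l hl).symm)
  exact this

/-- one residue class for each prime -/
theorem local_choice {p q l : ℕ} (hp : p.Prime) (hq : q.Prime) (hpq : p ≠ q) (hl : l.Prime)
    {g0 g0' gn gn' : ℤ} (h1 : ¬ (p : ℤ) ∣ g0) (h2 : ¬ (q : ℤ) ∣ g0') (h3 : ¬ (2 : ℤ) ∣ g0)
    (h4 : ¬ (q : ℤ) ∣ p * gn) (h5 : ¬ (p : ℤ) ∣ q * gn') (hp2 : p ≠ 2) (hq2 : q ≠ 2) :
    ∃ c : ℕ, (l = p → ¬ (l : ℤ) ∣ c) ∧ (l = q → ¬ (l : ℤ) ∣ c) ∧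
      ((l : ℤ) ∣ g0 → ¬ (l : ℤ) ∣ q * c + p * gn) ∧
      ((l : ℤ) ∣ g0' → ¬ (l : ℤ) ∣ p * c + q * gn') := by
  have hl1 : ¬ (l : ℤ) ∣ ((1 : ℕ) : ℤ) := by
    intro h
    exact hl.one_lt.ne' (Nat.dvd_one.mp (Int.natCast_dvd_natCast.mp h))
  by_cases hlp : l = p
  · subst hlp
    refine ⟨1, fun _ => hl1, fun _ => hl1, fun h => absurd h h1, fun _ h => h5 ?_⟩
    exact (dvd_add_right (Dvd.intro _ rfl)).mp h
  by_cases hlq : l = q
  · subst hlq
    refine ⟨1, fun _ => hl1, fun _ => hl1, fun _ h => h4 ?_, fun h => absurd h h2⟩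
    exact (dvd_add_right (Dvd.intro _ rfl)).mp h
  have hlp' : ¬ (l : ℤ) ∣ p := fun h =>
    hlp ((Nat.prime_dvd_prime_iff_eq hl hp).mp (Int.natCast_dvd_natCast.mp h))
  have hlq' : ¬ (l : ℤ) ∣ q := fun h =>
    hlq ((Nat.prime_dvd_prime_iff_eq hl hq).mp (Int.natCast_dvd_natCast.mp h))
  have hl' : Prime (l : ℤ) := Nat.prime_iff_prime_int.mp hl
  -- two values in one class
  have two : ∀ (b d : ℤ) (x y : ℕ), ¬ (l : ℤ) ∣ b → ¬ (l : ℤ) ∣ ((x : ℤ) - y) →
      (l : ℤ) ∣ b * x + d → ¬ (l : ℤ) ∣ b * y + d := by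
    intro b d x y hb hxy hx hy
    have h6 : (l : ℤ) ∣ b * ((x : ℤ) - y) := by
      have h7 := dvd_sub hx hy
      have e : b * x + d - (b * y + d) = b * ((x : ℤ) - y) := by ring
      rwa [e] at h7
    rcases hl'.dvd_mul.mp h6 with h7 | h7
    · exact hb h7
    · exact hxy h7
  have h01 : ¬ (l : ℤ) ∣ (((0 : ℕ) : ℤ) - ((1 : ℕ) : ℤ)) := by
    intro h
    apply hl1
    have e : (((0 : ℕ) : ℤ) - ((1 : ℕ) : ℤ)) = -((1 : ℕ) : ℤ) := by norm_num
    rwa [e, dvd_neg] at h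
  have h12 : ¬ (l : ℤ) ∣ (((1 : ℕ) : ℤ) - ((2 : ℕ) : ℤ)) := by
    intro h
    apply hl1
    have e : (((1 : ℕ) : ℤ) - ((2 : ℕ) : ℤ)) = -((1 : ℕ) : ℤ) := by norm_num
    rwa [e, dvd_neg] at h
  by_cases hl2 : l = 2
  · have hg0 : ¬ (l : ℤ) ∣ g0 := by rw [hl2]; exact h3
    by_cases h : (l : ℤ) ∣ p * ((0 : ℕ) : ℤ) + q * gn'
    · exact ⟨1, fun h' => absurd h' hlp, fun h' => absurd h' hlq, fun h' => absurd h' hg0,
        fun _ => two p (q * gn') 0 1 hlp' h01 h⟩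
    · exact ⟨0, fun h' => absurd h' hlp, fun h' => absurd h' hlq, fun h' => absurd h' hg0,
        fun _ => h⟩
  · have h02 : ¬ (l : ℤ) ∣ (((0 : ℕ) : ℤ) - ((2 : ℕ) : ℤ)) := by
      intro h
      have e : (((0 : ℕ) : ℤ) - ((2 : ℕ) : ℤ)) = -((2 : ℕ) : ℤ) := by norm_num
      rw [e, dvd_neg] at h
      exact hl2 ((Nat.prime_dvd_prime_iff_eq hl Nat.prime_two).mp (Int.natCast_dvd_natCast.mp h))
    have hc : ∃ c : ℕ, ¬ (l : ℤ) ∣ q * (c : ℤ) + p * gn ∧ ¬ (l : ℤ) ∣ p * (c : ℤ) + q * gn' := by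
      by_contra hcon
      push Not at hcon
      by_cases a0 : (l : ℤ) ∣ q * ((0 : ℕ) : ℤ) + p * gn
      · have b1 := hcon 1 (two q (p * gn) 0 1 hlq' h01 a0)
        have b2 := hcon 2 (two q (p * gn) 0 2 hlq' h02 a0)
        exact two p (q * gn') 1 2 hlp' h12 b1 b2
      · have b0 := hcon 0 a0
        by_cases a1 : (l : ℤ) ∣ q * ((1 : ℕ) : ℤ) + p * gn
        · have b2 := hcon 2 (two q (p * gn) 1 2 hlq' h12 a1)
          exact two p (q * gn') 0 2 hlp' h02 b0 b2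
        · exact two p (q * gn') 0 1 hlp' h01 b0 (hcon 1 a1)
    obtain ⟨c, hc1, hc2⟩ := hc
    exact ⟨c, fun h' => absurd h' hlp, fun h' => absurd h' hlq, fun _ => hc1, fun _ => hc2⟩

theorem choose_a {p q : ℕ} (hp : p.Prime) (hq : q.Prime) (hpq : p ≠ q)
    {g0 g0' gn gn' : ℤ} (h1 : ¬ (p : ℤ) ∣ g0) (h2 : ¬ (q : ℤ) ∣ g0') (h3 : ¬ (2 : ℤ) ∣ g0)
    (h4 : ¬ (q : ℤ) ∣ p * gn) (h5 : ¬ (p : ℤ) ∣ q * gn') (hp2 : p ≠ 2) (hq2 : q ≠ 2) :
    ∃ a : ℤ, ¬ (p : ℤ) ∣ a ∧ ¬ (q : ℤ) ∣ a ∧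
      (∀ l : ℤ, Prime l → l ∣ g0 → ¬ l ∣ q * a + p * gn) ∧
      (∀ l : ℤ, Prime l → l ∣ g0' → ¬ l ∣ p * a + q * gn') := by
  classical
  have hg0 : g0 ≠ 0 := by rintro rfl; exact h1 (dvd_zero _)
  have hg0' : g0' ≠ 0 := by rintro rfl; exact h2 (dvd_zero _)
  choose! c hc using fun (l : ℕ) (hl : l.Prime) =>
    local_choice hp hq hpq hl h1 h2 h3 h4 h5 hp2 hq2
  set N : ℕ := p * q * (g0.natAbs * g0'.natAbs) with hN
  have hN0 : N ≠ 0 := by
    have := Int.natAbs_ne_zero.mpr hg0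
    have := Int.natAbs_ne_zero.mpr hg0'
    have := hp.ne_zero
    have := hq.ne_zero
    positivity
  obtain ⟨a, ha⟩ := crt N.primeFactors (fun l hl => Nat.prime_of_mem_primeFactors hl) c
  have hmem : ∀ l : ℕ, l.Prime → l ∣ N → l ∈ N.primeFactors := fun l hl h =>
    Nat.mem_primeFactors.mpr ⟨hl, h, hN0⟩
  have hpN : p ∣ N := Dvd.intro (q * (g0.natAbs * g0'.natAbs)) (by rw [hN]; ring)
  have hqN : q ∣ N := Dvd.intro (p * (g0.natAbs * g0'.natAbs)) (by rw [hN]; ring)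
  have hgN : g0.natAbs ∣ N := Dvd.intro (p * q * g0'.natAbs) (by rw [hN]; ring)
  have hgN' : g0'.natAbs ∣ N := Dvd.intro (p * q * g0.natAbs) (by rw [hN]; ring)
  have tr : ∀ (l : ℕ) (b d : ℤ), (l : ℤ) ∣ (a : ℤ) - c l → (l : ℤ) ∣ b * a + d →
      (l : ℤ) ∣ b * (c l : ℤ) + d := by
    intro l b d h h'
    have e : b * (c l : ℤ) + d = (b * a + d) - b * ((a : ℤ) - c l) := by ring
    rw [e]
    exact dvd_sub h' (h.mul_left b)
  refine ⟨a, ?_, ?_, ?_, ?_⟩
  · intro h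
    have h6 := ha p (hmem p hp hpN)
    apply (hc p hp).1 rfl
    have := tr p 1 0 h6 (by simpa using h)
    simpa using this
  · intro h
    have h6 := ha q (hmem q hq hqN)
    apply (hc q hq).2.1 rfl
    have := tr q 1 0 h6 (by simpa using h)
    simpa using this
  · intro l hl hlg h
    have hln : l.natAbs.Prime := Int.prime_iff_natAbs_prime.mp hl
    have h6 := ha l.natAbs (hmem _ hln ((Int.natAbs_dvd_natAbs.mpr hlg).trans hgN))
    exact (hc _ hln).2.2.1 (Int.natAbs_dvd.mpr hlg) (tr _ q _ h6 (Int.natAbs_dvd.mpr h))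
  · intro l hl hlg h
    have hln : l.natAbs.Prime := Int.prime_iff_natAbs_prime.mp hl
    have h6 := ha l.natAbs (hmem _ hln ((Int.natAbs_dvd_natAbs.mpr hlg).trans hgN'))
    exact (hc _ hln).2.2.2 (Int.natAbs_dvd.mpr hlg) (tr _ p _ h6 (Int.natAbs_dvd.mpr h))

theorem complexityW {p q a : ℤ} {g : ℤ[X]} {n : ℕ} (hn : 0 < n) (hg : g.natDegree ≤ n)
    (hp : Prime p) (hpqa : ¬ p ∣ q * a) (hg0 : ¬ p ∣ g.coeff 0)
    (hprim : ∀ l : ℤ, Prime l → l ∣ g.coeff 0 → ¬ l ∣ q * a + p * g.coeff n) :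
    (C p * W p q a g n).natDegree = n ∧ ComplexityOne (C p * W p q a g n) := by
  have hdeg := W_natDegree hg hpqa
  refine ⟨by rw [natDegree_C_mul hp.ne_zero, hdeg], Or.inr ⟨C p, W p q a g n, ?_,
    W_irreducible hn hg hp hpqa hg0 hprim, ?_, rfl⟩⟩
  · exact (prime_C_iff.mpr hp).irreducible
  · intro h
    have h1 := natDegree_eq_of_degree_eq (degree_eq_degree_of_associated h)
    rw [natDegree_C, hdeg] at h1
    omega

theorem ComplexityOne.neg {x : ℤ[X]} (h : ComplexityOne x) : ComplexityOne (-x) := by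
  rcases h with ⟨r, e, h1, h2, h3⟩ | ⟨r, s, h1, h2, h3, h4⟩
  · exact Or.inl ⟨r, e, h1, h2, h3.neg_right⟩
  · refine Or.inr ⟨r, -s, h1, ((Associated.refl s).neg_right).irreducible h2, fun h => h3 ?_,
      by rw [h4]; ring⟩
    exact h.trans (Associated.neg_left (Associated.refl s))

theorem low (f : ℤ[X]) (n : ℕ) (hn : f.natDegree = n) (hn0 : 0 < n) :
    ∃ x y : ℤ[X], x.natDegree = n ∧ y.natDegree = n ∧ ComplexityOne x ∧ ComplexityOne y ∧
      f = x + y := by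
  have hf : f ≠ 0 := by
    rintro rfl
    rw [natDegree_zero] at hn
    omega
  obtain ⟨p, hpN, hp⟩ := Nat.exists_infinite_primes (f.leadingCoeff.natAbs + 3)
  obtain ⟨q, hqN, hq⟩ := Nat.exists_infinite_primes (p + 1)
  have hlc : f.leadingCoeff ≠ 0 := leadingCoeff_ne_zero.mpr hf
  have hfn : f.coeff n = f.leadingCoeff := by rw [leadingCoeff, hn]
  have hnd : ∀ r : ℕ, f.leadingCoeff.natAbs < r → ¬ (r : ℤ) ∣ f.leadingCoeff := by
    intro r hr h
    have h1 := Int.natAbs_dvd_natAbs.mpr h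
    rw [Int.natAbs_natCast] at h1
    have := Nat.le_of_dvd (Int.natAbs_pos.mpr hlc) h1
    omega
  have hp' : Prime (p : ℤ) := Nat.prime_iff_prime_int.mp hp
  have hq' : Prime (q : ℤ) := Nat.prime_iff_prime_int.mp hq
  have h2' : Prime (2 : ℤ) := Int.prime_two
  have hne : p ≠ q := by omega
  have hcop : Nat.Coprime p q := (Nat.coprime_primes hp hq).mpr hne
  have hpq : ¬ (p : ℤ) ∣ q := by
    intro h
    exact hne ((Nat.prime_dvd_prime_iff_eq hp hq).mp (Int.natCast_dvd_natCast.mp h))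
  have hqp : ¬ (q : ℤ) ∣ p := by
    intro h
    exact hne ((Nat.prime_dvd_prime_iff_eq hq hp).mp (Int.natCast_dvd_natCast.mp h)).symm
  have two_dvd : ∀ r : ℕ, r.Prime → (2 : ℤ) ∣ r → r = 2 := by
    intro r hr h
    have h1 : (2 : ℕ) ∣ r := by exact_mod_cast h
    exact ((Nat.prime_dvd_prime_iff_eq Nat.prime_two hr).mp h1).symm
  have dvd_two : ∀ r : ℕ, r.Prime → (r : ℤ) ∣ 2 → r = 2 := by
    intro r hr h
    have h1 : r ∣ 2 := by exact_mod_cast h
    exact (Nat.prime_dvd_prime_iff_eq hr Nat.prime_two).mp h1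
  obtain ⟨α, β, hab⟩ := (Nat.isCoprime_iff_coprime.mpr hcop)
  set A : ℤ := α ^ 2 * (1 + 2 * β * q) with hA
  set B : ℤ := β ^ 2 * (1 + 2 * α * p) with hB
  have hqA : ¬ (q : ℤ) ∣ A := by
    intro h
    rcases hq'.dvd_mul.mp h with h8 | h8
    · have h9 : (q : ℤ) ∣ 1 := by
        rw [← hab]
        exact dvd_add ((hq'.dvd_of_dvd_pow h8).mul_right _) (Dvd.intro_left _ rfl)
      exact hq'.not_isUnit (isUnit_of_dvd_one h9)
    · have h9 : (q : ℤ) ∣ 1 := (dvd_add_left (Dvd.intro_left (2 * β) rfl)).mp h8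
      exact hq'.not_isUnit (isUnit_of_dvd_one h9)
  have hpB : ¬ (p : ℤ) ∣ B := by
    intro h
    rcases hp'.dvd_mul.mp h with h8 | h8
    · have h9 : (p : ℤ) ∣ 1 := by
        rw [← hab]
        exact dvd_add (Dvd.intro_left _ rfl) ((hp'.dvd_of_dvd_pow h8).mul_right _)
      exact hp'.not_isUnit (isUnit_of_dvd_one h9)
    · have h9 : (p : ℤ) ∣ 1 := (dvd_add_left (Dvd.intro_left (2 * α) rfl)).mp h8
      exact hp'.not_isUnit (isUnit_of_dvd_one h9)
  obtain ⟨w, hw1, hw2, hw3⟩ : ∃ w : ℤ,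
      ¬ (p : ℤ) ∣ A * f.coeff 0 + (q : ℤ) ^ 2 * w ∧
      ¬ (q : ℤ) ∣ B * (-f).coeff 0 + (p : ℤ) ^ 2 * w ∧
      ¬ (2 : ℤ) ∣ A * f.coeff 0 + (q : ℤ) ^ 2 * w := by
    have key : ∀ (a b c : ℤ), Prime a → ¬ a ∣ b → ∃ y : ℤ, ¬ a ∣ c + b * y := by
      intro a b c ha hb
      by_cases h : a ∣ c
      · refine ⟨1, fun h1 => hb ?_⟩
        have h2 := (dvd_add_right h).mp h1
        rwa [mul_one] at h2
      · exact ⟨0, by simpa using h⟩
    obtain ⟨y1, hy1⟩ := key p ((q : ℤ) ^ 2 * (2 * q)) (A * f.coeff 0) hp' (by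
      intro h
      rcases hp'.dvd_mul.mp h with h1 | h1
      · exact hpq (hp'.dvd_of_dvd_pow h1)
      · rcases hp'.dvd_mul.mp h1 with h2 | h2
        · have := dvd_two p hp h2
          omega
        · exact hpq h2)
    obtain ⟨y2, hy2⟩ := key q ((p : ℤ) ^ 2 * (2 * p)) (B * (-f).coeff 0) hq' (by
      intro h
      rcases hq'.dvd_mul.mp h with h1 | h1
      · exact hqp (hq'.dvd_of_dvd_pow h1)
      · rcases hq'.dvd_mul.mp h1 with h2 | h2
        · have := dvd_two q hq h2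
          omega
        · exact hqp h2)
    obtain ⟨y3, hy3⟩ := key 2 ((q : ℤ) ^ 2 * (p * q)) (A * f.coeff 0) h2' (by
      intro h
      rcases h2'.dvd_mul.mp h with h1 | h1
      · have := two_dvd q hq (h2'.dvd_of_dvd_pow h1)
        omega
      · rcases h2'.dvd_mul.mp h1 with h2 | h2
        · have := two_dvd p hp h2
          omega
        · have := two_dvd q hq h2
          omega)
    refine ⟨2 * q * y1 + 2 * p * y2 + p * q * y3, fun h => hy1 ?_, fun h => hy2 ?_,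
      fun h => hy3 ?_⟩
    · have h1 : (p : ℤ) ∣ (q : ℤ) ^ 2 * (2 * p * y2 + p * q * y3) :=
        Dvd.intro ((q : ℤ) ^ 2 * (2 * y2 + q * y3)) (by ring)
      have h2 := dvd_sub h h1
      have e : A * f.coeff 0 + (q : ℤ) ^ 2 * (2 * q) * y1 =
          A * f.coeff 0 + (q : ℤ) ^ 2 * (2 * q * y1 + 2 * p * y2 + p * q * y3) -
            (q : ℤ) ^ 2 * (2 * p * y2 + p * q * y3) := by ring
      rw [e]
      exact h2
    · have h1 : (q : ℤ) ∣ (p : ℤ) ^ 2 * (2 * q * y1 + p * q * y3) :=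
        Dvd.intro ((p : ℤ) ^ 2 * (2 * y1 + p * y3)) (by ring)
      have h2 := dvd_sub h h1
      have e : B * (-f).coeff 0 + (p : ℤ) ^ 2 * (2 * p) * y2 =
          B * (-f).coeff 0 + (p : ℤ) ^ 2 * (2 * q * y1 + 2 * p * y2 + p * q * y3) -
            (p : ℤ) ^ 2 * (2 * q * y1 + p * q * y3) := by ring
      rw [e]
      exact h2
    · have h1 : (2 : ℤ) ∣ (q : ℤ) ^ 2 * (2 * q * y1 + 2 * p * y2) :=
        Dvd.intro ((q : ℤ) ^ 2 * (q * y1 + p * y2)) (by ring)
      have h2 := dvd_sub h h1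
      have e : A * f.coeff 0 + (q : ℤ) ^ 2 * (p * q) * y3 =
          A * f.coeff 0 + (q : ℤ) ^ 2 * (2 * q * y1 + 2 * p * y2 + p * q * y3) -
            (q : ℤ) ^ 2 * (2 * q * y1 + 2 * p * y2) := by ring
      rw [e]
      exact h2
  set g : ℤ[X] := C A * f + C ((q : ℤ) ^ 2 * w) with hg
  set g' : ℤ[X] := C B * (-f) + C ((p : ℤ) ^ 2 * w) with hg'
  have hg0 : g.coeff 0 = A * f.coeff 0 + (q : ℤ) ^ 2 * w := by
    rw [hg, coeff_add, coeff_C_mul, coeff_C_zero]
  have hg0' : g'.coeff 0 = B * (-f).coeff 0 + (p : ℤ) ^ 2 * w := by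
    rw [hg', coeff_add, coeff_C_mul, coeff_C_zero]
  have hgn : g.coeff n = A * f.leadingCoeff := by
    rw [hg, coeff_add, coeff_C_mul, coeff_C, if_neg (by omega), hfn, add_zero]
  have hgn' : g'.coeff n = B * (-f.leadingCoeff) := by
    rw [hg', coeff_add, coeff_C_mul, coeff_C, if_neg (by omega), coeff_neg, hfn, add_zero]
  have hgd : g.natDegree ≤ n := by
    refine (natDegree_add_le _ _).trans (max_le ((natDegree_C_mul_le _ _).trans hn.le) ?_)
    rw [natDegree_C]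
    omega
  have hgd' : g'.natDegree ≤ n := by
    refine (natDegree_add_le _ _).trans (max_le ((natDegree_C_mul_le _ _).trans ?_) ?_)
    · rw [natDegree_neg]
      exact hn.le
    · rw [natDegree_C]
      omega
  rw [← hg0] at hw1 hw3
  rw [← hg0'] at hw2
  have h4 : ¬ (q : ℤ) ∣ p * g.coeff n := by
    rw [hgn]
    intro h
    rcases hq'.dvd_mul.mp h with h1 | h1
    · exact hqp h1
    · rcases hq'.dvd_mul.mp h1 with h2 | h2
      · exact hqA h2
      · exact hnd q (by omega) h2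
  have h5 : ¬ (p : ℤ) ∣ q * g'.coeff n := by
    rw [hgn']
    intro h
    rcases hp'.dvd_mul.mp h with h1 | h1
    · exact hpq h1
    · rcases hp'.dvd_mul.mp h1 with h2 | h2
      · exact hpB h2
      · exact hnd p (by omega) (dvd_neg.mp h2)
  obtain ⟨a, ha1, ha2, ha3, ha4⟩ := choose_a hp hq hne hw1 hw2 hw3 h4 h5 (by omega) (by omega)
  have hpa : ¬ (p : ℤ) ∣ q * a := fun h => (hp'.dvd_mul.mp h).elim hpq ha1
  have hqa : ¬ (q : ℤ) ∣ p * a := fun h => (hq'.dvd_mul.mp h).elim hqp ha2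
  obtain ⟨hx1, hx2⟩ := complexityW hn0 hgd hp' hpa hw1 ha3
  obtain ⟨hy1, hy2⟩ := complexityW hn0 hgd' hq' hqa hw2 ha4
  refine ⟨_, -(C (q : ℤ) * W q p a g' n), hx1, by rw [natDegree_neg]; exact hy1, hx2, hy2.neg, ?_⟩
  have key : (p : ℤ) * (p * A) + q * (q * B) = 1 := by
    rw [hA, hB]
    linear_combination (α * p + β * q + 1 + 2 * α * p * β * q) * hab
  have e1 : (C (p : ℤ) * (C (p : ℤ) * C A) + C (q : ℤ) * (C (q : ℤ) * C B) : ℤ[X]) = 1 := by
    rw [← C_mul, ← C_mul, ← C_mul, ← C_mul, ← C_add, key, C_1]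
  have e2 : (C (p : ℤ) * (C (p : ℤ) * C ((q : ℤ) ^ 2 * w)) : ℤ[X]) =
      C (q : ℤ) * (C (q : ℤ) * C ((p : ℤ) ^ 2 * w)) := by
    rw [← C_mul, ← C_mul, ← C_mul, ← C_mul]
    congr 1
    ring
  have e3 : (C (p : ℤ) * C ((q : ℤ) * a) : ℤ[X]) = C (q : ℤ) * C ((p : ℤ) * a) := by
    rw [← C_mul, ← C_mul]
    congr 1
    ring
  unfold W
  rw [hg, hg']
  linear_combination (-f) * e1 - e2 - X ^ n * e3

/-- **Main result.** Every nonzero `f` in `ℤ[X]` is, for every `n ≥ 1` with `n ≥ deg f`, a sum of two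
polynomials of degree `n` and of complexity one. -/
theorem result (f : ℤ[X]) (hf : f ≠ 0) (n : ℕ) (hn0 : 1 ≤ n) (hn : f.natDegree ≤ n) :
    ∃ x y : ℤ[X], x.natDegree = n ∧ y.natDegree = n ∧ ComplexityOne x ∧ ComplexityOne y ∧
      f = x + y := by
  rcases Nat.lt_or_ge f.natDegree n with h | h
  · exact high f hf n h
  · exact low f n (le_antisymm hn h) hn0

end Pool.Agent.Results.MP_0efb30_nt.IntegerPolynomials
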