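import Mathlib

/-!
# Sums of two products of two irreducible polynomials in `ℚ[X]` (MP_0efb30_nt)

Every polynomial over `ℚ` of degree `n ≥ 2` is a sum of two polynomials of degree `n` each of which
is a product of two non-associated irreducible polynomials.
-/

set_option autoImplicit false

open Polynomial

namespace Pool.Agent.Results.MP_0efb30_nt.RationalPolynomials

/-- `x` is a product of two non-associated irreducible polynomials. -/
def TwoIrreducibles (x : ℚ[X]) : Prop :=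
  ∃ u v : ℚ[X], Irreducible u ∧ Irreducible v ∧ ¬ Associated u v ∧ x = u * v

theorem eis {u : ℤ[X]} {p : ℤ} (hp : Prime p) (hdeg : 0 < u.natDegree)
    (hlead : ¬ p ∣ u.leadingCoeff) (hlow : ∀ i < u.natDegree, p ∣ u.coeff i)
    (h0 : ¬ p ^ 2 ∣ u.coeff 0) : Irreducible (u.map (Int.castRingHom ℚ)) := by
  have hu : u ≠ 0 := by
    rintro rfl
    simp at hdeg
  have hc : u = C u.content * u.primPart := u.eq_C_content_mul_primPart
  have hcont0 : u.content ≠ 0 := content_eq_zero_iff.not.mpr hu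
  have hpc : ¬ p ∣ u.content := fun h => hlead (h.trans (content_dvd_coeff _))
  have hcoeff : ∀ i, u.coeff i = u.content * u.primPart.coeff i := by
    intro i
    conv_lhs => rw [hc]
    rw [coeff_C_mul]
  have hprim := u.isPrimitive_primPart
  have hnd : u.primPart.natDegree = u.natDegree := natDegree_primPart u
  have hirr : Irreducible u.primPart := by
    refine irreducible_of_eisenstein_criterion (P := Ideal.span {p})
      ((Ideal.span_singleton_prime hp.ne_zero).mpr hp) ?_ ?_ ?_ ?_ hprim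
    · rw [Ideal.mem_span_singleton]
      intro h
      apply hlead
      rw [leadingCoeff, hcoeff, ← hnd]
      exact h.mul_left _
    · intro i hi
      rw [degree_eq_natDegree hprim.ne_zero, hnd] at hi
      have hi' : i < u.natDegree := by exact_mod_cast hi
      rw [Ideal.mem_span_singleton]
      have := hlow i hi'
      rw [hcoeff] at this
      exact (hp.dvd_mul.mp this).resolve_left hpc
    · rw [degree_eq_natDegree hprim.ne_zero, hnd]
      exact_mod_cast hdeg
    · rw [Ideal.span_singleton_pow, Ideal.mem_span_singleton]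
      intro h
      apply h0
      rw [hcoeff]
      exact h.mul_left _
  have h2 : Irreducible (u.primPart.map (Int.castRingHom ℚ)) :=
    (IsPrimitive.Int.irreducible_iff_irreducible_map_cast hprim).mp hirr
  have h3 : u.map (Int.castRingHom ℚ) =
      C (u.content : ℚ) * u.primPart.map (Int.castRingHom ℚ) := by
    conv_lhs => rw [hc]
    rw [Polynomial.map_mul, map_C]
    rfl
  rw [h3]
  exact (irreducible_isUnit_mul (isUnit_C.mpr (IsUnit.mk0 _ (by exact_mod_cast hcont0)))).mpr h2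

theorem shape {κ p : ℤ} {G : ℤ[X]} {k : ℕ} (hk : 0 < k) (hG : G.natDegree ≤ k) (hp : Prime p)
    (hκ : ¬ p ∣ κ) (hG0 : ¬ p ∣ G.coeff 0) :
    (C κ * X ^ k + C p * G).natDegree = k ∧
      Irreducible ((C κ * X ^ k + C p * G).map (Int.castRingHom ℚ)) ∧
      ∀ c : ℤ, ¬ p ∣ c → (C κ * X ^ k + C p * G).eval c ≠ 0 := by
  set u : ℤ[X] := C κ * X ^ k + C p * G with hu
  have hc : ∀ i, u.coeff i = (if i = k then κ else 0) + p * G.coeff i := by
    intro i
    rw [hu, coeff_add, coeff_C_mul, coeff_C_mul, coeff_X_pow]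
    split_ifs <;> simp
  have hck : ¬ p ∣ u.coeff k := by
    rw [hc, if_pos rfl]
    intro h
    exact hκ ((dvd_add_left (Dvd.intro _ rfl)).mp h)
  have hdeg : u.natDegree = k := by
    refine le_antisymm ?_ (le_natDegree_of_ne_zero ?_)
    · rw [natDegree_le_iff_coeff_eq_zero]
      intro i hi
      rw [hc, if_neg (by omega), coeff_eq_zero_of_natDegree_lt (by omega)]
      ring
    · intro h
      rw [h] at hck
      exact hck (dvd_zero _)
  refine ⟨hdeg, eis hp (by omega) (by rw [leadingCoeff, hdeg]; exact hck) ?_ ?_, ?_⟩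
  · intro i hi
    rw [hc, if_neg (by omega), zero_add]
    exact Dvd.intro _ rfl
  · rw [hc, if_neg (by omega), zero_add]
    rintro ⟨c, hc'⟩
    apply hG0
    refine ⟨c, mul_left_cancel₀ hp.ne_zero ?_⟩
    linear_combination hc'
  · intro c hpc h
    rw [hu, eval_add, eval_mul, eval_mul, eval_C, eval_C, eval_pow, eval_X] at h
    have h1 : p ∣ κ * c ^ k := ⟨-G.eval c, by linear_combination h⟩
    rcases hp.dvd_mul.mp h1 with h2 | h2
    · exact hκ h2
    · exact hpc (hp.dvd_of_dvd_pow h2)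

theorem main_int (F : ℤ[X]) (k : ℕ) (hF : F.natDegree ≤ k + 1) (hk : 1 ≤ k) (s κ μ : ℤ)
    (hs : 0 < s) (hκ : κ ≠ 0) (hμ : μ ≠ 0) (h1 : κ * s ^ k + F.eval s = 0)
    (h2 : F.eval (s + 1) - μ * (s + 1) ^ k = 0) :
    ∃ u v : ℤ[X], u.natDegree = k ∧ v.natDegree = k ∧
      Irreducible (u.map (Int.castRingHom ℚ)) ∧ Irreducible (v.map (Int.castRingHom ℚ)) ∧
      u.eval (s + 1) ≠ 0 ∧ v.eval s ≠ 0 ∧ F = (X - C (s + 1)) * u + (X - C s) * v := by
  obtain ⟨Su, hSu⟩ : X - C s ∣ C κ * X ^ k + F := dvd_iff_isRoot.mpr (by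
    rw [IsRoot, eval_add, eval_mul, eval_C, eval_pow, eval_X]
    exact h1)
  obtain ⟨Sv, hSv⟩ : X - C (s + 1) ∣ F - C μ * X ^ k := dvd_iff_isRoot.mpr (by
    rw [IsRoot, eval_sub, eval_mul, eval_C, eval_pow, eval_X]
    exact h2)
  set Δ := Sv - Su with hΔdef
  have hC1 : (C (s + 1) : ℤ[X]) = C s + 1 := by rw [C_add, C_1]
  have hΔ : (X - C s) * (X - C (s + 1)) * Δ =
      F - (C μ * (X - C s) + C κ * (X - C (s + 1))) * X ^ k := by
    rw [hΔdef]
    have e1 : (X - C s) * (X - C (s + 1)) * (Sv - Su) =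
        (X - C s) * ((X - C (s + 1)) * Sv) - (X - C (s + 1)) * ((X - C s) * Su) := by ring
    rw [e1, ← hSv, ← hSu, hC1]
    ring
  have hdegΔ : Δ.natDegree ≤ k - 1 := by
    by_cases h0 : Δ = 0
    · rw [h0, natDegree_zero]
      omega
    · have h3 : ((X - C s) * (X - C (s + 1)) * Δ).natDegree = 2 + Δ.natDegree := by
        rw [natDegree_mul (mul_ne_zero (X_sub_C_ne_zero _) (X_sub_C_ne_zero _)) h0,
          natDegree_mul (X_sub_C_ne_zero _) (X_sub_C_ne_zero _), natDegree_X_sub_C,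
          natDegree_X_sub_C]
      have h4 : (F - (C μ * (X - C s) + C κ * (X - C (s + 1))) * X ^ k).natDegree ≤ k + 1 := by
        refine (natDegree_sub_le _ _).trans (max_le hF ?_)
        refine (natDegree_mul_le).trans ?_
        rw [natDegree_X_pow]
        have h5 : (C μ * (X - C s) + C κ * (X - C (s + 1)) : ℤ[X]).natDegree ≤ 1 := by
          refine (natDegree_add_le _ _).trans (max_le ?_ ?_)
          · exact (natDegree_C_mul_le _ _).trans (natDegree_X_sub_C_le _)
          · exact (natDegree_C_mul_le _ _).trans (natDegree_X_sub_C_le _)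
        omega
      rw [← hΔ, h3] at h4
      omega
  set M0 := κ.natAbs + μ.natAbs + (s + 1).natAbs with hM0
  obtain ⟨p, hpN, hp⟩ := Nat.exists_infinite_primes (M0 + 1)
  obtain ⟨q, hqN, hq⟩ := Nat.exists_infinite_primes (p + 1)
  have hnd : ∀ (r : ℕ) (z : ℤ), z ≠ 0 → z.natAbs < r → ¬ (r : ℤ) ∣ z := by
    intro r z hz hr h
    have h1 := Int.natAbs_dvd_natAbs.mpr h
    rw [Int.natAbs_natCast] at h1
    have := Nat.le_of_dvd (Int.natAbs_pos.mpr hz) h1
    omega
  have hsabs : s.natAbs ≤ (s + 1).natAbs := by omega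
  have hp' : Prime (p : ℤ) := Nat.prime_iff_prime_int.mp hp
  have hq' : Prime (q : ℤ) := Nat.prime_iff_prime_int.mp hq
  have hne : p ≠ q := by omega
  have hcop : Nat.Coprime p q := (Nat.coprime_primes hp hq).mpr hne
  have hpq : ¬ (p : ℤ) ∣ q := by
    intro h
    exact hne ((Nat.prime_dvd_prime_iff_eq hp hq).mp (Int.natCast_dvd_natCast.mp h))
  have hqp : ¬ (q : ℤ) ∣ p := by
    intro h
    exact hne ((Nat.prime_dvd_prime_iff_eq hq hp).mp (Int.natCast_dvd_natCast.mp h)).symm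
  obtain ⟨α, β, hab⟩ := (Nat.isCoprime_iff_coprime.mpr hcop)
  obtain ⟨w, hw1, hw2⟩ : ∃ w : ℤ,
      ¬ (p : ℤ) ∣ α * Δ.coeff 0 + q * w ∧ ¬ (q : ℤ) ∣ -β * Δ.coeff 0 + p * w := by
    have key : ∀ (a b c : ℤ), Prime a → ¬ a ∣ b → ∃ y : ℤ, ¬ a ∣ c + b * y := by
      intro a b c ha hb
      by_cases h : a ∣ c
      · refine ⟨1, fun h1 => hb ?_⟩
        have h2 := (dvd_add_right h).mp h1
        rwa [mul_one] at h2
      · exact ⟨0, by simpa using h⟩
    obtain ⟨y1, hy1⟩ := key p ((q : ℤ) * q) (α * Δ.coeff 0) hp' (fun h =>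
      (hp'.dvd_mul.mp h).elim hpq hpq)
    obtain ⟨y2, hy2⟩ := key q ((p : ℤ) * p) (-β * Δ.coeff 0) hq' (fun h =>
      (hq'.dvd_mul.mp h).elim hqp hqp)
    refine ⟨q * y1 + p * y2, fun h => hy1 ?_, fun h => hy2 ?_⟩
    · have h3 : (p : ℤ) ∣ (q : ℤ) * (p * y2) := Dvd.intro ((q : ℤ) * y2) (by ring)
      have h4 := dvd_sub h h3
      have e : α * Δ.coeff 0 + (q : ℤ) * q * y1 =
          α * Δ.coeff 0 + (q : ℤ) * (q * y1 + p * y2) - (q : ℤ) * (p * y2) := by ring
      rw [e]
      exact h4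
    · have h3 : (q : ℤ) ∣ (p : ℤ) * (q * y1) := Dvd.intro ((p : ℤ) * y1) (by ring)
      have h4 := dvd_sub h h3
      have e : -β * Δ.coeff 0 + (p : ℤ) * p * y2 =
          -β * Δ.coeff 0 + (p : ℤ) * (q * y1 + p * y2) - (p : ℤ) * (q * y1) := by ring
      rw [e]
      exact h4
  set T : ℤ[X] := C α * Δ + C (q * w) with hT
  set T' : ℤ[X] := C (-β) * Δ + C (p * w) with hT'
  have hT0 : T.coeff 0 = α * Δ.coeff 0 + q * w := by
    rw [hT, coeff_add, coeff_C_mul, coeff_C_zero]
  have hT0' : T'.coeff 0 = -β * Δ.coeff 0 + p * w := by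
    rw [hT', coeff_add, coeff_C_mul, coeff_C_zero]
  have hTd : T.natDegree ≤ k - 1 := by
    refine (natDegree_add_le _ _).trans (max_le ((natDegree_C_mul_le _ _).trans hdegΔ) ?_)
    rw [natDegree_C]
    omega
  have hTd' : T'.natDegree ≤ k - 1 := by
    refine (natDegree_add_le _ _).trans (max_le ((natDegree_C_mul_le _ _).trans hdegΔ) ?_)
    rw [natDegree_C]
    omega
  have hlin : ∀ (c : ℤ) (R : ℤ[X]), R.natDegree ≤ k - 1 → ((X - C c) * R).natDegree ≤ k := by
    intro c R hR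
    refine natDegree_mul_le.trans ?_
    have := natDegree_X_sub_C_le c
    omega
  have hlin0 : ∀ (c : ℤ) (R : ℤ[X]), ((X - C c) * R).coeff 0 = -c * R.coeff 0 := by
    intro c R
    rw [mul_coeff_zero, coeff_sub, coeff_X_zero, coeff_C_zero, zero_sub]
  obtain ⟨a1, a2, a3⟩ := shape (κ := κ) (p := p) (G := (X - C s) * T) (k := k) (by omega)
    (hlin s T hTd) hp' (hnd p κ hκ (by omega)) (by
      rw [hlin0, hT0]
      intro h
      rcases hp'.dvd_mul.mp h with h3 | h3
      · exact hnd p s (by omega) (by omega) (dvd_neg.mp h3)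
      · exact hw1 h3)
  obtain ⟨b1, b2, b3⟩ := shape (κ := μ) (p := q) (G := (X - C (s + 1)) * (-T')) (k := k)
    (by omega) (hlin (s + 1) (-T') (by rw [natDegree_neg]; exact hTd')) hq'
    (hnd q μ hμ (by omega)) (by
      rw [hlin0, coeff_neg, hT0']
      intro h
      rcases hq'.dvd_mul.mp h with h3 | h3
      · exact hnd q (s + 1) (by omega) (by omega) (dvd_neg.mp h3)
      · exact hw2 (dvd_neg.mp h3))
  refine ⟨_, _, a1, b1, a2, b2, a3 (s + 1) (hnd p (s + 1) (by omega) (by omega)),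
    b3 s (hnd q s (by omega) (by omega)), ?_⟩
  have e1 : (C (p : ℤ) * C α + C (q : ℤ) * C β : ℤ[X]) = 1 := by
    rw [← C_mul, ← C_mul, ← C_add, ← C_1]
    congr 1
    linear_combination hab
  have e2 : (C (p : ℤ) * C ((q : ℤ) * w) : ℤ[X]) = C (q : ℤ) * C ((p : ℤ) * w) := by
    rw [← C_mul, ← C_mul]
    congr 1
    ring
  have e3 : (C (-β) : ℤ[X]) = -C β := C_neg
  rw [hT, hT', e3]
  linear_combination -hΔ - (X - C s) * (X - C (s + 1)) * Δ * e1 -
    (X - C s) * (X - C (s + 1)) * e2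

theorem two_irr {c : ℚ} {u : ℚ[X]} {d : ℚ} (hd : d ≠ 0) (hu : Irreducible u)
    (huc : u.eval c ≠ 0) : TwoIrreducibles ((X - C c) * (C d * u)) := by
  refine ⟨X - C c, C d * u, irreducible_X_sub_C c,
    (irreducible_isUnit_mul (isUnit_C.mpr (IsUnit.mk0 _ hd))).mpr hu, fun h => ?_, rfl⟩
  have h1 := dvd_iff_isRoot.mp h.dvd
  rw [IsRoot, eval_mul, eval_C] at h1
  rcases mul_eq_zero.mp h1 with h2 | h2
  · exact hd h2
  · exact huc h2

/-- **Main result.** Every polynomial over `ℚ` of degree `n ≥ 2` is a sum of two polynomials of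
degree `n` each of which is a product of two non-associated irreducible polynomials. -/
theorem result (f : ℚ[X]) (n : ℕ) (hf : f.natDegree = n) (hn : 2 ≤ n) :
    ∃ x y : ℚ[X], x.natDegree = n ∧ y.natDegree = n ∧ TwoIrreducibles x ∧ TwoIrreducibles y ∧
      f = x + y := by
  have hf0 : f ≠ 0 := by
    rintro rfl
    rw [natDegree_zero] at hf
    omega
  -- the point `s`
  obtain ⟨s, hs⟩ : ∃ s : ℕ, (X * (f * f.comp (X + C 1))).eval (s : ℚ) ≠ 0 := by
    by_contra hcon
    push Not at hcon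
    have h1 : (X * (f * f.comp (X + C 1)) : ℚ[X]) = 0 := by
      refine eq_zero_of_infinite_isRoot _ (Set.Infinite.mono ?_
        (Set.infinite_range_of_injective (Nat.cast_injective (R := ℚ))))
      rintro _ ⟨m, rfl⟩
      exact hcon m
    have h2 : f.comp (X + C 1) ≠ 0 := by
      intro h
      have h3 := congrArg natDegree h
      rw [natDegree_comp, natDegree_X_add_C, natDegree_zero, mul_one] at h3
      omega
    exact mul_ne_zero X_ne_zero (mul_ne_zero hf0 h2) h1
  rw [eval_mul, eval_mul, eval_X, eval_comp, eval_add, eval_X, eval_C] at hs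
  have hs0 : (s : ℚ) ≠ 0 := left_ne_zero_of_mul hs
  have hs1 : f.eval (s : ℚ) ≠ 0 := left_ne_zero_of_mul (right_ne_zero_of_mul hs)
  have hs2 : f.eval ((s : ℚ) + 1) ≠ 0 := right_ne_zero_of_mul (right_ne_zero_of_mul hs)
  have hspos : 0 < (s : ℤ) := by
    have : s ≠ 0 := by exact_mod_cast hs0
    omega
  -- denominators
  obtain ⟨b, hbm, hb⟩ := IsLocalization.integerNormalization_spec (nonZeroDivisors ℤ) f
  set F0 : ℤ[X] := IsLocalization.integerNormalization (nonZeroDivisors ℤ) f with hF0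
  have hb0 : (b : ℤ) ≠ 0 := nonZeroDivisors.ne_zero hbm
  have hF0m : F0.map (Int.castRingHom ℚ) = C ((b : ℤ) : ℚ) * f := by
    have h3 : F0.map (algebraMap ℤ ℚ) = (b : ℤ) • f := hb
    rw [algebraMap_int_eq] at h3
    rw [h3, zsmul_eq_mul]
    simp
  have hev : ∀ z : ℤ, ((F0.eval z : ℤ) : ℚ) = (b : ℤ) * f.eval (z : ℚ) := by
    intro z
    have h3 := congrArg (fun g : ℚ[X] => g.eval (z : ℚ)) hF0m
    simp only [eval_mul, eval_C] at h3
    rw [← h3, eval_intCast_map]
    simp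
  obtain ⟨k, rfl⟩ : ∃ k, n = k + 1 := ⟨n - 1, by omega⟩
  set N : ℤ := ((s : ℤ) * (s + 1)) ^ k with hN
  have hN0 : N ≠ 0 := pow_ne_zero _ (mul_ne_zero (by omega) (by omega))
  have hF0s : F0.eval (s : ℤ) ≠ 0 := by
    intro h
    have h3 := hev s
    rw [h] at h3
    have h4 : ((b : ℤ) : ℚ) * f.eval ((s : ℤ) : ℚ) = 0 := by rw [← h3]; norm_num
    rcases mul_eq_zero.mp h4 with h5 | h5
    · exact hb0 (by exact_mod_cast h5)
    · exact hs1 (by exact_mod_cast h5)
  have hF0s1 : F0.eval ((s : ℤ) + 1) ≠ 0 := by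
    intro h
    have h3 := hev (s + 1)
    rw [h] at h3
    have h4 : ((b : ℤ) : ℚ) * f.eval (((s : ℤ) + 1 : ℤ) : ℚ) = 0 := by rw [← h3]; norm_num
    rcases mul_eq_zero.mp h4 with h5 | h5
    · exact hb0 (by exact_mod_cast h5)
    · push_cast at h5
      exact hs2 h5
  have hFd : (C N * F0).natDegree ≤ k + 1 := by
    refine (natDegree_C_mul_le _ _).trans ?_
    have h3 : (F0.map (Int.castRingHom ℚ)).natDegree = F0.natDegree :=
      natDegree_map_eq_of_injective (RingHom.injective_int _) F0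
    rw [← h3, hF0m]
    exact (natDegree_C_mul_le _ _).trans hf.le
  obtain ⟨u, v, hu, hv, hui, hvi, hu1, hv1, hF⟩ := main_int (C N * F0) k hFd (by omega) s
    (-((s : ℤ) + 1) ^ k * F0.eval (s : ℤ)) ((s : ℤ) ^ k * F0.eval ((s : ℤ) + 1)) hspos
    (mul_ne_zero (neg_ne_zero.mpr (pow_ne_zero _ (by omega))) hF0s)
    (mul_ne_zero (pow_ne_zero _ (by omega)) hF0s1)
    (by rw [eval_mul, eval_C, hN, mul_pow]; ring) (by rw [eval_mul, eval_C, hN, mul_pow]; ring)
  set D : ℚ := (N : ℚ) * ((b : ℤ) : ℚ) with hD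
  have hD0 : D ≠ 0 := mul_ne_zero (by exact_mod_cast hN0) (by exact_mod_cast hb0)
  have hmap : C D * f = (X - C (((s : ℤ) + 1 : ℤ) : ℚ)) * u.map (Int.castRingHom ℚ) +
      (X - C ((s : ℤ) : ℚ)) * v.map (Int.castRingHom ℚ) := by
    have h3 := congrArg (fun g : ℤ[X] => g.map (Int.castRingHom ℚ)) hF
    simp only [Polynomial.map_mul, Polynomial.map_add, Polynomial.map_sub, map_X, map_C] at h3
    rw [hF0m] at h3
    rw [hD, C_mul, mul_assoc]
    exact h3
  have hudeg : (u.map (Int.castRingHom ℚ)).natDegree = k := by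
    rw [natDegree_map_eq_of_injective (RingHom.injective_int _), hu]
  have hvdeg : (v.map (Int.castRingHom ℚ)).natDegree = k := by
    rw [natDegree_map_eq_of_injective (RingHom.injective_int _), hv]
  have hD1 : D⁻¹ ≠ 0 := inv_ne_zero hD0
  have hdeg : ∀ (c : ℚ) (g : ℚ[X]), Irreducible g → g.natDegree = k →
      ((X - C c) * (C D⁻¹ * g)).natDegree = k + 1 := by
    intro c g hg hgk
    rw [natDegree_mul (X_sub_C_ne_zero c) (mul_ne_zero (C_ne_zero.mpr hD1) hg.ne_zero),
      natDegree_X_sub_C, natDegree_C_mul hD1, hgk]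
    omega
  refine ⟨(X - C (((s : ℤ) + 1 : ℤ) : ℚ)) * (C D⁻¹ * u.map (Int.castRingHom ℚ)),
    (X - C ((s : ℤ) : ℚ)) * (C D⁻¹ * v.map (Int.castRingHom ℚ)), hdeg _ _ hui hudeg,
    hdeg _ _ hvi hvdeg, two_irr hD1 hui ?_, two_irr hD1 hvi ?_, ?_⟩
  · rw [eval_intCast_map]
    intro h
    have h4 : ((u.eval ((s : ℤ) + 1) : ℤ) : ℚ) = 0 := h
    exact hu1 (Int.cast_eq_zero.mp h4)
  · rw [eval_intCast_map]
    intro h
    have h4 : ((v.eval (s : ℤ) : ℤ) : ℚ) = 0 := h
    exact hv1 (Int.cast_eq_zero.mp h4)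
  · have h3 : (C D⁻¹ * C D : ℚ[X]) = 1 := by
      rw [← C_mul, inv_mul_cancel₀ hD0, C_1]
    linear_combination (-f) * h3 + C D⁻¹ * hmap

end Pool.Agent.Results.MP_0efb30_nt.RationalPolynomials
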